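import Pool.Agent.U307.RAD.Stm2
import Pool.Agent.N892.BW.PLZ
import Pool.Agent.N892.BW.RTT_A

/-!
# Project RAD, package SYM: symmetry and boundedness of the powers of the Beurling transform
-/

set_option autoImplicit false

open MeasureTheory ENNReal Filter Topology Complex
open scoped ComplexConjugate ContDiff FourierTransform

namespace Pool.Agent.U690.RAD

open Pool.Agent.U307.RAD
open Pool.Agent.N892.BW.PLZ (G four_S norm_G meas_G)

theorem TS_same (n : ℕ) (f : SchwartzMap ℂ ℂ) : TS n f = Pool.Agent.N892.BW.TS n f := rfl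

theorem flip_fourier {u v : ℂ → ℂ} (hu : Integrable u) (hv : Integrable v) :
    ∫ z, 𝓕 u z * v z = ∫ z, u z * 𝓕 v z := by
  simpa using! VectorFourier.integral_fourierIntegral_smul_eq_flip (L := innerₗ ℂ)
    Real.continuous_fourierChar continuous_inner hu hv

theorem int_G (n : ℕ) (f : SchwartzMap ℂ ℂ) : Integrable (G n f) := by
  have hI : Integrable (𝓕 (fun z : ℂ => f z) : ℂ → ℂ) := by
    rw [four_S]; exact (𝓕 f).integrable
  exact hI.mono (meas_G n f).aestronglyMeasurable (Eventually.of_forall (norm_G n f))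

theorem TS_eq' (n : ℕ) (f : SchwartzMap ℂ ℂ) :
    TS n f = 𝓕 (fun x => G n f (-x)) := by
  rw [← Real.fourierInv_eq_fourier_comp_neg]
  funext z
  rw [Real.fourierInv_eq_fourier_neg, TS_same, Pool.Agent.N892.BW.PLZ.TS_eq]

theorem G_neg (n : ℕ) (f : SchwartzMap ℂ ℂ) (x : ℂ) :
    G n f (-x) = (starRingEnd ℂ x / x) ^ n * 𝓕 (fun z : ℂ => f z) (-x) := by
  unfold G
  rw [map_neg, neg_div_neg_eq]

theorem t_SYM : S_SYM := by
  intro n f h
  have hf : Integrable (fun z : ℂ => f z) := f.integrable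
  have hh : Integrable (fun z : ℂ => h z) := h.integrable
  have h1 : ∫ z, TS n f z * h z = ∫ z, G n f (-z) * 𝓕 (fun z : ℂ => h z) z := by
    rw [TS_eq']
    exact flip_fourier (int_G n f).comp_neg hh
  have h2 : ∫ z, f z * TS n h z = ∫ z, 𝓕 (fun z : ℂ => f z) z * G n h (-z) := by
    rw [TS_eq']
    exact (flip_fourier hf (int_G n h).comp_neg).symm
  rw [h1, h2, ← integral_neg_eq_self (fun z => 𝓕 (fun z : ℂ => f z) z * G n h (-z))]
  refine integral_congr_ae (Eventually.of_forall fun z => ?_)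
  simp only [neg_neg]
  rw [G_neg]
  unfold G
  ring

theorem t_TB : S_TB := by
  intro n f
  refine ⟨?_, ∫ ξ, ‖𝓕 (fun z : ℂ => f z) ξ‖, fun z => ?_⟩
  · rw [TS_same]; exact Pool.Agent.N892.BW.RTT.TS_cont n f
  · rw [TS_same, Pool.Agent.N892.BW.PLZ.TS_eq]
    have hI : Integrable (𝓕 (fun z : ℂ => f z) : ℂ → ℂ) := by
      rw [four_S]; exact (𝓕 f).integrable
    refine (VectorFourier.norm_fourierIntegral_le_integral_norm _ _ _ _ _).trans ?_
    exact integral_mono (int_G n f).norm hI.norm (norm_G n f)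

end Pool.Agent.U690.RAD
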